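import Pool.Agent.Lib.MP_b0cc33_lc.UrSpace
import Pool.Agent.Lib.MP_b0cc33_lc.UrConv

set_option autoImplicit false

namespace Pool.Agent.Results.MP_b0cc33_lc.Urysohn

open Pool.Agent.Lib.MP_b0cc33_lc.Ur

/-- There is one computable metric space, a computable presentation of the Urysohn space, such
that a finitely generated group has co-c.e. word problem if and only if it embeds in the group of
computable isometries of that space. -/
theorem result :
    ∃ (X : Type) (_ : MetricSpace X) (_ : CompleteSpace X) (s : ℕ → X),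
      IsComputablePresentation s ∧ HasExtension X ∧
      ∀ (G : Type*) [Group G] (n : ℕ) (gen : Fin n → G), Subgroup.closure (Set.range gen) = ⊤ →
        ((REPred fun w : List (Fin n × Bool) => wordVal gen w ≠ 1) ↔
          ∃ φ : G →* (X ≃ᵢ X), Function.Injective φ ∧ ∀ g : G, IsComputableMap s (φ g)) := by
  have hs : IsComputablePresentation ss := by
    have hm : Primrec fun t : ℕ × ℕ × ℕ => max t.1 t.2.1 :=
      Primrec.nat_max.comp Primrec.fst (Primrec.fst.comp Primrec.snd)
    refine ⟨dense_ss, fun t => R (max t.1 t.2.1) t.1 t.2.1, fun t => 2 ^ max t.1 t.2.1 - 1,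
      (primrec_R hm Primrec.fst (Primrec.fst.comp Primrec.snd)).to_comp,
      (Primrec.nat_sub.comp (hpow.comp (Primrec.const 2) hm) (Primrec.const 1)).to_comp,
      fun i j k => ?_⟩
    have h1 : ((2 ^ max i j - 1 : ℕ) : ℝ) + 1 = 2 ^ max i j := by
      rw [Nat.cast_sub Nat.one_le_two_pow]
      simp
    rw [dist_ss, rho_eq (le_max_left i j) (le_max_right i j), h1, sub_self, abs_zero]
    positivity
  refine ⟨UU, inferInstance, inferInstance, ss, hs, extension, fun G _ n gen hgen =>
    ⟨fun hwp => ?_, fun ⟨ψ, hψ, h⟩ => re_of_action hs gen ψ hψ h⟩⟩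
  have hsurj : Function.Surjective (FreeGroup.lift gen) := by
    rw [← MonoidHom.range_eq_top, FreeGroup.range_lift_eq_closure, hgen]
  obtain ⟨ψ, hψ, h⟩ := exists_action (FreeGroup.lift gen) hsurj (hwp.of_eq fun w => by
    rw [FreeGroup.lift_mk]
    rfl)
  refine ⟨ψ, hψ, fun g => ?_⟩
  obtain ⟨h, hh, hh'⟩ := h g
  obtain ⟨c, hc⟩ := Nat.Partrec.Code.exists_code.1 (Partrec.nat_iff.1 hh.partrec)
  refine ⟨.comp (ofCode c) (.pair (.comp .oracle .succ) .succ), fun x p hp =>
    ⟨fun k => h (Nat.pair (p (k + 1)) (k + 1)), fun k => ?_, fun k => ?_⟩⟩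
  · simp [Prog.eval, eval_ofCode, hc, Seq.seq]
  · refine (dist_triangle _ _ _).trans ((add_le_add (hh' _ _)
      (((ψ g).dist_eq _ _).le.trans (hp (k + 1)))).trans (le_of_eq ?_))
    ring

end Pool.Agent.Results.MP_b0cc33_lc.Urysohn
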